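import Pool.Agent.Helper36.RN.GoalsG

set_option autoImplicit false

namespace Pool.Agent.Helper19.RN

open Finset Pool.Agent.Helper36.RN Pool.Agent.Helper47.RFn

variable {n : ℕ} {𝒜 : Type} [CommRing 𝒜] [Algebra ℝ 𝒜] (e : Ix n → Derivation ℝ 𝒜 𝒜)
  (n0 : Ix n → 𝒜) (A θ : Ix n → Ix n → 𝒜) (w : Ix n → Ix n → Ix n → 𝒜)

theorem F_ij (i j c d : Ix n) : TC.F e n0 w i j c d = - TC.F e n0 w j i c d := by
  simp only [TC.F]
  have h : ∑ f, (w j c f * w i f d - w i c f * w j f d)
      = - ∑ f, (w i c f * w j f d - w j c f * w i f d) := by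
    rw [← Finset.sum_neg_distrib]
    refine Finset.sum_congr rfl fun f _ => ?_
    ring
  rw [h]; ring

theorem F_cd (hw : ∀ i c d, w i c d = - w i d c) (i j c d : Ix n) :
    TC.F e n0 w i j c d = - TC.F e n0 w i j d c := by
  simp only [TC.F]
  have h : ∑ f, (w j c f * w i f d - w i c f * w j f d)
      = - ∑ f, (w j d f * w i f c - w i d f * w j f c) := by
    rw [← Finset.sum_neg_distrib]
    refine Finset.sum_congr rfl fun f _ => ?_
    rw [hw j d f, hw i f c, hw i d f, hw j f c]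
    ring
  rw [h, hw j c d, hw i c d, map_neg, map_neg]; ring

theorem Ga_cd (hw : ∀ i c d, w i c d = - w i d c) (a c d : Ix n) :
    TC.Ga A w a c d = - TC.Ga A w a d c := by
  simp only [TC.Ga]
  rw [← Finset.sum_neg_distrib]
  refine Finset.sum_congr rfl fun i _ => ?_
  rw [hw i c d]; ring

theorem K_ab (a b c d : Ix n) : TC.K e n0 A w a b c d = - TC.K e n0 A w b a c d := by
  simp only [TC.K]
  rw [Finset.sum_comm, ← Finset.sum_neg_distrib]
  refine Finset.sum_congr rfl fun i _ => ?_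
  rw [← Finset.sum_neg_distrib]
  refine Finset.sum_congr rfl fun j _ => ?_
  rw [F_ij e n0 w j i c d]; ring

theorem K_cd (hw : ∀ i c d, w i c d = - w i d c) (a b c d : Ix n) :
    TC.K e n0 A w a b c d = - TC.K e n0 A w a b d c := by
  simp only [TC.K]
  rw [← Finset.sum_neg_distrib]
  refine Finset.sum_congr rfl fun i _ => ?_
  rw [← Finset.sum_neg_distrib]
  refine Finset.sum_congr rfl fun j _ => ?_
  rw [F_cd e n0 w hw i j c d]; ring

theorem ze_cd (hw : ∀ i c d, w i c d = - w i d c) (c d : Ix n) :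
    TC.ze e A w c d = - TC.ze e A w d c := by
  simp only [TC.ze]
  rw [← Finset.sum_neg_distrib]
  refine Finset.sum_congr rfl fun k _ => ?_
  rw [← Finset.sum_neg_distrib]
  refine Finset.sum_congr rfl fun l _ => ?_
  rw [hw l c d, map_neg]; ring

theorem T_ij (i j c : Ix n) : TC.T e n0 θ w i j c = - TC.T e n0 θ w j i c := by
  simp only [TC.T]
  have h : ∑ b, (θ j b * w i b c - θ i b * w j b c)
      = - ∑ b, (θ i b * w j b c - θ j b * w i b c) := by
    rw [← Finset.sum_neg_distrib]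
    refine Finset.sum_congr rfl fun f _ => ?_
    ring
  rw [h]; ring

theorem ta_ab (a b c : Ix n) : TC.ta e n0 A θ w a b c = - TC.ta e n0 A θ w b a c := by
  simp only [TC.ta]
  rw [Finset.sum_comm, ← Finset.sum_neg_distrib]
  refine Finset.sum_congr rfl fun i _ => ?_
  rw [← Finset.sum_neg_distrib]
  refine Finset.sum_congr rfl fun j _ => ?_
  rw [T_ij e n0 θ w j i c]; ring

theorem y3_cd (hw : ∀ i c d, w i c d = - w i d c) (a c d : Ix n) :
    TC.y3 e n0 A w a c d = - TC.y3 e n0 A w a d c := by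
  simp only [TC.y3, TC.cd4]
  rw [← Finset.sum_neg_distrib]
  refine Finset.sum_congr rfl fun p _ => ?_
  have h1 : FR.Fd e A p (TC.K e n0 A w p a c d) = - FR.Fd e A p (TC.K e n0 A w p a d c) := by
    rw [K_cd e n0 A w hw p a c d]
    simp only [FR.Fd, map_neg, mul_neg, Finset.sum_neg_distrib]
  have h2 : ∑ f, (TC.Ga A w p p f * TC.K e n0 A w f a c d + TC.Ga A w p a f * TC.K e n0 A w p f c d
      + TC.Ga A w p c f * TC.K e n0 A w p a f d + TC.Ga A w p d f * TC.K e n0 A w p a c f)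
      = - ∑ f, (TC.Ga A w p p f * TC.K e n0 A w f a d c + TC.Ga A w p a f * TC.K e n0 A w p f d c
      + TC.Ga A w p d f * TC.K e n0 A w p a f c + TC.Ga A w p c f * TC.K e n0 A w p a d f) := by
    rw [← Finset.sum_neg_distrib]
    refine Finset.sum_congr rfl fun f _ => ?_
    rw [K_cd e n0 A w hw f a c d, K_cd e n0 A w hw p f c d, K_cd e n0 A w hw p a f d,
      K_cd e n0 A w hw p a c f]
    ring
  rw [h1, h2]; ring

theorem zz_cd (hw : ∀ i c d, w i c d = - w i d c) (i c d : Ix n) :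
    ∑ f, (w i c f * TC.ze e A w f d + w i d f * TC.ze e A w c f)
      = - ∑ f, (w i d f * TC.ze e A w f c + w i c f * TC.ze e A w d f) := by
  rw [← Finset.sum_neg_distrib]
  refine Finset.sum_congr rfl fun f _ => ?_
  rw [ze_cd e A w hw f d, ze_cd e A w hw c f]
  ring

theorem rw_cd (hw : ∀ i c d, w i c d = - w i d c) (i c d : Ix n) :
    TC.rw e n0 A θ w i c d = - TC.rw e n0 A θ w i d c := by
  simp only [TC.rw]
  have h1 : ∑ a, θ i a * TC.y3 e n0 A w a c d = - ∑ a, θ i a * TC.y3 e n0 A w a d c := by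
    rw [← Finset.sum_neg_distrib]
    refine Finset.sum_congr rfl fun a _ => ?_
    rw [y3_cd e n0 A w hw a c d]; ring
  rw [h1, ze_cd e A w hw c d, map_neg, zz_cd e A w hw i c d]
  ring

theorem Gq_cd (hw : ∀ i c d, w i c d = - w i d c) (k i c d : Ix n) :
    TC.Gq n0 w k i c d = - TC.Gq n0 w k i d c := by
  simp only [TC.Gq]
  have h : ∑ f, (w i c f * w k f d - w k c f * w i f d)
      = - ∑ f, (w i d f * w k f c - w k d f * w i f c) := by
    rw [← Finset.sum_neg_distrib]
    refine Finset.sum_congr rfl fun f _ => ?_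
    rw [hw i d f, hw k f c, hw k d f, hw i f c]
    ring
  rw [h, hw i c d, hw k c d]; ring

/-- the eight parts of `lw` -/
theorem lw_cd (hw : ∀ i c d, w i c d = - w i d c) (i c d : Ix n) :
    TC.lw e n0 A θ w i c d = - TC.lw e n0 A θ w i d c := by
  have hF := F_cd e n0 w hw
  have h1 : ∑ p, ∑ k, TC.al A p k * (n0 i * e p (w k c d) - n0 p * e i (w k c d))
      = - ∑ p, ∑ k, TC.al A p k * (n0 i * e p (w k d c) - n0 p * e i (w k d c)) := by
    simp only [← Finset.sum_neg_distrib]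
    refine Finset.sum_congr rfl fun p _ => Finset.sum_congr rfl fun k _ => ?_
    rw [hw k c d, map_neg, map_neg]; ring
  have h2 : ∑ p, ∑ k, TC.al A p k * e p (TC.Gq n0 w k i c d)
      = - ∑ p, ∑ k, TC.al A p k * e p (TC.Gq n0 w k i d c) := by
    simp only [← Finset.sum_neg_distrib]
    refine Finset.sum_congr rfl fun p _ => Finset.sum_congr rfl fun k _ => ?_
    rw [Gq_cd n0 w hw k i c d, map_neg]; ring
  have h3 : ∑ p, ∑ k, TC.al A p k * ∑ f, (TC.F e n0 w k i c f * w p f d - w p c f * TC.F e n0 w k i f d)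
      = - ∑ p, ∑ k, TC.al A p k * ∑ f, (TC.F e n0 w k i d f * w p f c - w p d f * TC.F e n0 w k i f c) := by
    simp only [← Finset.sum_neg_distrib]
    refine Finset.sum_congr rfl fun p _ => Finset.sum_congr rfl fun k _ => ?_
    rw [← mul_neg, ← Finset.sum_neg_distrib]
    congr 1
    refine Finset.sum_congr rfl fun f _ => ?_
    rw [hF k i d f, hw p f c, hF k i f c, hw p d f]; ring
  have h4 : ∑ a, ∑ p, ∑ k, A a p * e p (A a k) * TC.F e n0 w k i c d
      = - ∑ a, ∑ p, ∑ k, A a p * e p (A a k) * TC.F e n0 w k i d c := by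
    simp only [← Finset.sum_neg_distrib]
    refine Finset.sum_congr rfl fun a _ => Finset.sum_congr rfl fun p _ =>
      Finset.sum_congr rfl fun k _ => ?_
    rw [hF k i c d]; ring
  have h5 : ∑ a, ∑ f, ∑ p, ∑ k, A a p * w p a f * A f k * TC.F e n0 w k i c d
      = - ∑ a, ∑ f, ∑ p, ∑ k, A a p * w p a f * A f k * TC.F e n0 w k i d c := by
    simp only [← Finset.sum_neg_distrib]
    refine Finset.sum_congr rfl fun a _ => Finset.sum_congr rfl fun f _ =>
      Finset.sum_congr rfl fun p _ => Finset.sum_congr rfl fun k _ => ?_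
    rw [hF k i c d]; ring
  have h6 : ∑ p, ∑ k, ∑ a, ∑ l, TC.al A p k * θ i a * e p (A a l) * TC.F e n0 w k l c d
      = - ∑ p, ∑ k, ∑ a, ∑ l, TC.al A p k * θ i a * e p (A a l) * TC.F e n0 w k l d c := by
    simp only [← Finset.sum_neg_distrib]
    refine Finset.sum_congr rfl fun a _ => Finset.sum_congr rfl fun f _ =>
      Finset.sum_congr rfl fun p _ => Finset.sum_congr rfl fun l _ => ?_
    rw [hF f l c d]; ring
  have h7 : ∑ p, ∑ k, ∑ a, ∑ f, ∑ l, TC.al A p k * θ i a * w p a f * A f l * TC.F e n0 w k l c d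
      = - ∑ p, ∑ k, ∑ a, ∑ f, ∑ l, TC.al A p k * θ i a * w p a f * A f l * TC.F e n0 w k l d c := by
    simp only [← Finset.sum_neg_distrib]
    refine Finset.sum_congr rfl fun p _ => Finset.sum_congr rfl fun k _ =>
      Finset.sum_congr rfl fun a _ => Finset.sum_congr rfl fun f _ => Finset.sum_congr rfl fun l _ => ?_
    rw [hF k l c d]; ring
  have h8 : ∑ k, ∑ l, e i (TC.al A k l) * e k (w l c d)
      = - ∑ k, ∑ l, e i (TC.al A k l) * e k (w l d c) := by
    simp only [← Finset.sum_neg_distrib]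
    refine Finset.sum_congr rfl fun p _ => Finset.sum_congr rfl fun k _ => ?_
    rw [hw k c d, map_neg]; ring
  have h9 := zz_cd e A w hw i c d
  unfold TC.lw
  rw [h1, h2, h3, h4, h5, h6, h7, h8, h9]
  ring

theorem sw_cd (hw : ∀ i c d, w i c d = - w i d c) (i c d : Ix n) :
    TC.sw e n0 A θ w i c d = - TC.sw e n0 A θ w i d c := by
  have h1 : ∑ p, ∑ k, TC.al A p k * e p (e k (w i c d))
      = - ∑ p, ∑ k, TC.al A p k * e p (e k (w i d c)) := by
    simp only [← Finset.sum_neg_distrib]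
    refine Finset.sum_congr rfl fun p _ => Finset.sum_congr rfl fun k _ => ?_
    rw [hw i c d, map_neg, map_neg]; ring
  unfold TC.sw
  rw [h1, lw_cd e n0 A θ w hw i c d]
  ring

theorem X4_cyc (p a b c : Ix n) : TC.X4 e n0 A w p a b c = TC.X4 e n0 A w a b p c := by
  simp only [TC.X4]; ring

theorem ant : G_ANT := by
  intro n 𝒜 _ _ e n0 A θ w hw
  exact ⟨F_ij e n0 w, F_cd e n0 w hw, Ga_cd A w hw, K_ab e n0 A w, K_cd e n0 A w hw, ze_cd e A w hw,
    T_ij e n0 θ w, ta_ab e n0 A θ w, y3_cd e n0 A w hw, rw_cd e n0 A θ w hw, sw_cd e n0 A θ w hw,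
    X4_cyc e n0 A w⟩

end Pool.Agent.Helper19.RN
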